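import Mathlib

set_option autoImplicit false
open Finset

namespace Pool.Agent.Results.MP_06b5a3_co.UnbalancedLower

/-- `h` is an affine plane of `ℝ³`. -/
def IsPlane (h : Set (Fin 3 → ℝ)) : Prop :=
  ∃ (a : Fin 3 → ℝ) (b : ℝ), a ≠ 0 ∧ h = {x | ∑ i, a i * x i = b}

open Classical in
/-- the number of incidences. -/
noncomputable def incidences (P : Finset (Fin 3 → ℝ)) (H : Finset (Set (Fin 3 → ℝ))) : ℕ :=
  ((P ×ˢ H).filter fun q => q.1 ∈ q.2).card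

/-- the incidence graph of `P` and `H` contains `K_{s,t}`: `s` points lying on `t` planes. -/
def ContainsK (s t : ℕ) (P : Finset (Fin 3 → ℝ)) (H : Finset (Set (Fin 3 → ℝ))) : Prop :=
  ∃ S ⊆ P, S.card = s ∧ ∃ T ⊆ H, T.card = t ∧ ∀ p ∈ S, ∀ h ∈ T, p ∈ h

/-- the values of the number of incidences for `m` points and `n` planes, with no `K_{3,t}`. -/
def values (t m n : ℕ) : Set ℕ :=
  {k | ∃ (P : Finset (Fin 3 → ℝ)) (H : Finset (Set (Fin 3 → ℝ))), P.card = m ∧ H.card = n ∧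
    (∀ h ∈ H, IsPlane h) ∧ ¬ ContainsK 3 t P H ∧ incidences P H = k}

/-- the maximum number `I_t(m,n)` of incidences. -/
noncomputable def maxInc (t m n : ℕ) : ℕ := sSup (values t m n)

/-! ### Configurations of natural numbers -/

/-- incidence of the point `(x,y,z)` and the plane `z = a x + b y + c`. -/
def inc (p h : ℕ × ℕ × ℕ) : Prop := p.2.2 = h.1 * p.1 + h.2.1 * p.2.1 + h.2.2

instance : DecidableRel inc := fun _ _ => by unfold inc; infer_instance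

/-- no three points on three common planes. -/
def free (P H : Finset (ℕ × ℕ × ℕ)) : Prop :=
  ∀ S ⊆ P, S.card = 3 → ∀ T ⊆ H, T.card = 3 → ∃ p ∈ S, ∃ h ∈ T, ¬ inc p h

/-- the number of incidences. -/
def ninc (P H : Finset (ℕ × ℕ × ℕ)) : ℕ := ((P ×ˢ H).filter fun q => inc q.1 q.2).card

/-- the point. -/
def rp (p : ℕ × ℕ × ℕ) : Fin 3 → ℝ := ![p.1, p.2.1, p.2.2]

/-- the plane `z = a x + b y + c`. -/
def pl (a b c : ℝ) : Set (Fin 3 → ℝ) := {x | ∑ i, (![a, b, -1] : Fin 3 → ℝ) i * x i = -c}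

theorem mem_pl (a b c : ℝ) (v : Fin 3 → ℝ) : v ∈ pl a b c ↔ v 2 = a * v 0 + b * v 1 + c := by
  simp only [pl, Set.mem_ofPred_eq, Fin.sum_univ_three, Matrix.cons_val_zero, Matrix.cons_val_one,
    Matrix.cons_val]
  constructor <;> intro h <;> linarith

theorem isPlane_pl (a b c : ℝ) : IsPlane (pl a b c) := by
  refine ⟨![a, b, -1], -c, ?_, rfl⟩
  intro h
  have := congrFun h 2
  simp at this

theorem pl_inj {a b c a' b' c' : ℝ} (h : pl a b c = pl a' b' c') : a = a' ∧ b = b' ∧ c = c' := by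
  have h1 : (![0, 0, c] : Fin 3 → ℝ) ∈ pl a' b' c' := by rw [← h, mem_pl]; simp
  have h2 : (![1, 0, a + c] : Fin 3 → ℝ) ∈ pl a' b' c' := by rw [← h, mem_pl]; simp
  have h3 : (![0, 1, b + c] : Fin 3 → ℝ) ∈ pl a' b' c' := by rw [← h, mem_pl]; simp
  rw [mem_pl] at h1 h2 h3
  simp at h1 h2 h3
  refine ⟨by linarith, by linarith, by linarith⟩

/-- the plane of a triple. -/
def rh (h : ℕ × ℕ × ℕ) : Set (Fin 3 → ℝ) := pl h.1 h.2.1 h.2.2

theorem rp_mem_rh (p h : ℕ × ℕ × ℕ) : rp p ∈ rh h ↔ inc p h := by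
  rw [rh, mem_pl, inc]
  simp only [rp, Matrix.cons_val_zero, Matrix.cons_val_one, Matrix.cons_val]
  exact_mod_cast Iff.rfl

theorem rp_inj : Function.Injective rp := by
  intro p q h
  have h0 := congrFun h 0
  have h1 := congrFun h 1
  have h2 := congrFun h 2
  simp only [rp, Matrix.cons_val_zero, Matrix.cons_val_one, Matrix.cons_val] at h0 h1 h2
  ext
  · exact_mod_cast h0
  · exact_mod_cast h1
  · exact_mod_cast h2

theorem rh_inj : Function.Injective rh := by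
  intro p q h
  obtain ⟨h0, h1, h2⟩ := pl_inj h
  ext
  · exact_mod_cast h0
  · exact_mod_cast h1
  · exact_mod_cast h2

/-- the additional points. -/
def xp (j : ℕ) : Fin 3 → ℝ := ![0, 0, -1 - j]

/-- the additional planes. -/
def xh (j : ℕ) : Set (Fin 3 → ℝ) := pl 0 0 (j + 1 / 2)

theorem xp_inj : Function.Injective xp := by
  intro i j h
  have h2 := congrFun h 2
  simp only [xp, Matrix.cons_val] at h2
  have : (i : ℝ) = j := by linarith
  exact_mod_cast this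

theorem xh_inj : Function.Injective xh := by
  intro i j h
  obtain ⟨_, _, h2⟩ := pl_inj h
  have : (i : ℝ) = j := by linarith
  exact_mod_cast this

theorem xp_rh (j : ℕ) (h : ℕ × ℕ × ℕ) : xp j ∉ rh h := by
  rw [rh, mem_pl]
  simp only [xp, Matrix.cons_val_zero, Matrix.cons_val_one, Matrix.cons_val, mul_zero, zero_add]
  intro h'
  have h1 : (0 : ℝ) ≤ j := Nat.cast_nonneg j
  have h2 : (0 : ℝ) ≤ h.2.2 := Nat.cast_nonneg _
  linarith

theorem rp_xh (p : ℕ × ℕ × ℕ) (j : ℕ) : rp p ∉ xh j := by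
  rw [xh, mem_pl]
  simp only [rp, Matrix.cons_val_zero, Matrix.cons_val_one, Matrix.cons_val, zero_mul, zero_add]
  intro h'
  have h1 : (2 * p.2.2 : ℝ) = 2 * j + 1 := by linarith
  have h2 : 2 * p.2.2 = 2 * j + 1 := by exact_mod_cast h1
  omega

theorem xp_xh (i j : ℕ) : xp i ∉ xh j := by
  rw [xh, mem_pl]
  simp only [xp, Matrix.cons_val_zero, Matrix.cons_val_one, Matrix.cons_val, mul_zero, zero_add]
  intro h'
  have h1 : (0 : ℝ) ≤ j := Nat.cast_nonneg j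
  have h2 : (0 : ℝ) ≤ i := Nat.cast_nonneg i
  linarith

theorem transfer (P H : Finset (ℕ × ℕ × ℕ)) (hf : free P H) (m n t : ℕ) (hm : P.card ≤ m)
    (hn : H.card ≤ n) (ht : 3 ≤ t) : ninc P H ≤ maxInc t m n := by
  classical
  obtain ⟨P', hP'⟩ : ∃ P', P' = P.image rp ∪ (range (m - P.card)).image xp := ⟨_, rfl⟩
  obtain ⟨H', hH'⟩ : ∃ H', H' = H.image rh ∪ (range (n - H.card)).image xh := ⟨_, rfl⟩
  have hcP : P'.card = m := by
    rw [hP', card_union_of_disjoint, card_image_of_injective _ rp_inj,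
      card_image_of_injective _ xp_inj, card_range]
    · omega
    · rw [disjoint_left]
      intro v hv hv'
      rw [mem_image] at hv hv'
      obtain ⟨p, _, rfl⟩ := hv
      obtain ⟨j, _, hj⟩ := hv'
      have h2 := congrFun hj 2
      simp only [xp, rp, Matrix.cons_val] at h2
      have h1 : (0 : ℝ) ≤ j := Nat.cast_nonneg j
      have h3 : (0 : ℝ) ≤ p.2.2 := Nat.cast_nonneg _
      linarith
  have hcH : H'.card = n := by
    rw [hH', card_union_of_disjoint, card_image_of_injective _ rh_inj,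
      card_image_of_injective _ xh_inj, card_range]
    · omega
    · rw [disjoint_left]
      intro v hv hv'
      rw [mem_image] at hv hv'
      obtain ⟨h, _, rfl⟩ := hv
      obtain ⟨j, _, hj⟩ := hv'
      have : rp (0, 0, h.2.2) ∈ xh j := by
        rw [hj, rp_mem_rh]
        simp [inc]
      exact rp_xh _ _ this
  have hincP : ∀ v ∈ P', ∀ w ∈ H', v ∈ w → ∃ p ∈ P, ∃ h ∈ H, rp p = v ∧ rh h = w := by
    intro v hv w hw hvw
    rw [hP', mem_union, mem_image, mem_image] at hv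
    rw [hH', mem_union, mem_image, mem_image] at hw
    rcases hv with ⟨p, hp, rfl⟩ | ⟨i, _, rfl⟩
    · rcases hw with ⟨h, hh, rfl⟩ | ⟨j, _, rfl⟩
      · exact ⟨p, hp, h, hh, rfl, rfl⟩
      · exact absurd hvw (rp_xh _ _)
    · rcases hw with ⟨h, hh, rfl⟩ | ⟨j, _, rfl⟩
      · exact absurd hvw (xp_rh _ _)
      · exact absurd hvw (xp_xh _ _)
  have hK : ¬ ContainsK 3 t P' H' := by
    rintro ⟨S, hS, hS3, T, hT, hTt, hST⟩
    obtain ⟨T0, hT0, hT03⟩ := exists_subset_card_eq (show 3 ≤ T.card by omega)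
    obtain ⟨w0, hw0⟩ : T0.Nonempty := card_pos.1 (by omega)
    obtain ⟨v0, hv0⟩ : S.Nonempty := card_pos.1 (by omega)
    have hSP : S ⊆ P.image rp := by
      intro v hv
      obtain ⟨p, hp, _, _, h1, _⟩ := hincP v (hS hv) w0 (hT (hT0 hw0)) (hST v hv w0 (hT0 hw0))
      exact mem_image.2 ⟨p, hp, h1⟩
    have hTH : T0 ⊆ H.image rh := by
      intro w hw
      obtain ⟨_, _, h, hh, _, h1⟩ := hincP v0 (hS hv0) w (hT (hT0 hw)) (hST v0 hv0 w (hT0 hw))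
      exact mem_image.2 ⟨h, hh, h1⟩
    obtain ⟨S1, hS1, rfl⟩ := subset_image_iff.1 hSP
    obtain ⟨T1, hT1, rfl⟩ := subset_image_iff.1 hTH
    rw [card_image_of_injective _ rp_inj] at hS3
    rw [card_image_of_injective _ rh_inj] at hT03
    obtain ⟨p, hp, h, hh, hnot⟩ := hf S1 (by exact_mod_cast hS1) hS3 T1 (by exact_mod_cast hT1) hT03
    apply hnot
    rw [← rp_mem_rh]
    exact hST _ (mem_image_of_mem _ hp) _ (hT0 (mem_image_of_mem _ hh))
  have hpl : ∀ h ∈ H', IsPlane h := by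
    intro h hh
    rw [hH', mem_union, mem_image, mem_image] at hh
    rcases hh with ⟨h, _, rfl⟩ | ⟨j, _, rfl⟩
    · exact isPlane_pl _ _ _
    · exact isPlane_pl _ _ _
  have hle : ninc P H ≤ incidences P' H' := by
    unfold ninc incidences
    rw [← card_image_of_injective (f := fun q : (ℕ × ℕ × ℕ) × (ℕ × ℕ × ℕ) => (rp q.1, rh q.2)) _
      (fun q q' h => by
        rw [Prod.mk.injEq] at h
        exact Prod.ext (rp_inj h.1) (rh_inj h.2))]
    apply card_le_card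
    intro q hq
    rw [mem_image] at hq
    obtain ⟨q', hq', rfl⟩ := hq
    rw [mem_filter, mem_product] at hq'
    rw [mem_filter, mem_product]
    refine ⟨⟨?_, ?_⟩, ?_⟩
    · rw [hP']; exact mem_union_left _ (mem_image_of_mem _ hq'.1.1)
    · rw [hH']; exact mem_union_left _ (mem_image_of_mem _ hq'.1.2)
    · exact (rp_mem_rh _ _).2 hq'.2
  refine hle.trans ?_
  unfold maxInc
  apply le_csSup
  · refine ⟨m * n, ?_⟩
    rintro k ⟨P, H, hP, hH, _, _, rfl⟩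
    unfold incidences
    refine (card_filter_le _ _).trans ?_
    rw [card_product, hP, hH]
  · exact ⟨P', H', hcP, hcH, hpl, hK, rfl⟩

/-! ### Lattice configurations -/

/-- no three collinear points. -/
def noThree (S : Finset (ℕ × ℕ)) : Prop :=
  ∀ u ∈ S, ∀ v ∈ S, ∀ w ∈ S, u ≠ v → u ≠ w → v ≠ w →
    ((v.1 : ℤ) - u.1) * ((w.2 : ℤ) - u.2) - ((w.1 : ℤ) - u.1) * ((v.2 : ℤ) - u.2) ≠ 0

/-- the triples `(x, y, z)` with `(x, y) ∈ S` and `z < Z`. -/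
def box (S : Finset (ℕ × ℕ)) (Z : ℕ) : Finset (ℕ × ℕ × ℕ) :=
  (S ×ˢ range Z).image fun q => (q.1.1, q.1.2, q.2)

theorem mem_box (S : Finset (ℕ × ℕ)) (Z : ℕ) (q : ℕ × ℕ × ℕ) :
    q ∈ box S Z ↔ (q.1, q.2.1) ∈ S ∧ q.2.2 < Z := by
  unfold box
  rw [mem_image]
  constructor
  · rintro ⟨⟨⟨a, b⟩, c⟩, h, rfl⟩
    rw [mem_product, mem_range] at h
    exact h
  · rintro ⟨h1, h2⟩
    refine ⟨((q.1, q.2.1), q.2.2), ?_, rfl⟩
    rw [mem_product, mem_range]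
    exact ⟨h1, h2⟩

theorem card_box (S : Finset (ℕ × ℕ)) (Z : ℕ) : (box S Z).card = S.card * Z := by
  unfold box
  rw [card_image_of_injective, card_product, card_range]
  rintro ⟨⟨a, b⟩, c⟩ ⟨⟨a', b'⟩, c'⟩ h
  simp only [Prod.mk.injEq] at h ⊢
  obtain ⟨rfl, rfl, rfl⟩ := h
  exact ⟨⟨rfl, rfl⟩, rfl⟩

theorem ninc_box (S T : Finset (ℕ × ℕ)) (Z C : ℕ)
    (h : ∀ u ∈ S, ∀ v ∈ T, v.1 * u.1 + v.2 * u.2 + C ≤ Z) :
    S.card * T.card * C ≤ ninc (box S Z) (box T C) := by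
  unfold ninc
  have h0 : S.card * T.card * C = ((S ×ˢ T) ×ˢ range C).card := by
    rw [card_product, card_product, card_range]
  rw [h0]
  apply card_le_card_of_injOn (fun q : ((ℕ × ℕ) × (ℕ × ℕ)) × ℕ =>
    ((q.1.1.1, q.1.1.2, q.1.2.1 * q.1.1.1 + q.1.2.2 * q.1.1.2 + q.2),
      (q.1.2.1, q.1.2.2, q.2)))
  · rintro ⟨⟨u, v⟩, c⟩ hq
    rw [mem_coe, mem_product, mem_product, mem_range] at hq
    obtain ⟨⟨hu, hv⟩, hc⟩ := hq
    rw [mem_coe, mem_filter, mem_product, mem_box, mem_box]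
    have h1 := h u hu v hv
    refine ⟨⟨⟨hu, ?_⟩, ⟨hv, hc⟩⟩, rfl⟩
    show v.1 * u.1 + v.2 * u.2 + c < Z
    have h2 : c < C := hc
    omega
  · rintro ⟨⟨u, v⟩, c⟩ _ ⟨⟨u', v'⟩, c'⟩ _ hq
    simp only [Prod.mk.injEq] at hq
    obtain ⟨⟨h1, h2, _⟩, h3, h4, h5⟩ := hq
    rw [Prod.mk.injEq, Prod.mk.injEq]
    exact ⟨⟨Prod.ext h1 h2, Prod.ext h3 h4⟩, h5⟩

theorem det_zero {α β x1 y1 x2 y2 x3 y3 γ : ℤ} (h : ¬ (α = 0 ∧ β = 0))
    (h1 : α * x1 + β * y1 = γ) (h2 : α * x2 + β * y2 = γ) (h3 : α * x3 + β * y3 = γ) :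
    (x2 - x1) * (y3 - y1) - (x3 - x1) * (y2 - y1) = 0 := by
  have e1 : α * (x2 - x1) + β * (y2 - y1) = 0 := by linarith
  have e2 : α * (x3 - x1) + β * (y3 - y1) = 0 := by linarith
  have f1 : α * ((x2 - x1) * (y3 - y1) - (x3 - x1) * (y2 - y1)) = 0 := by
    linear_combination (y3 - y1) * e1 - (y2 - y1) * e2
  have f2 : β * ((x2 - x1) * (y3 - y1) - (x3 - x1) * (y2 - y1)) = 0 := by
    linear_combination (x2 - x1) * e2 - (x3 - x1) * e1
  rcases mul_eq_zero.1 f1 with h4 | h4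
  · rcases mul_eq_zero.1 f2 with h5 | h5
    · exact absurd ⟨h4, h5⟩ h
    · exact h5
  · exact h4

theorem free_left (S T : Finset (ℕ × ℕ)) (Z C : ℕ) (hS : noThree S) :
    free (box S Z) (box T C) := by
  intro S3 hS3 hS3c T3 hT3 hT3c
  by_contra hcon
  push Not at hcon
  obtain ⟨p, q, r, hpq, hpr, hqr, rfl⟩ := card_eq_three.1 hS3c
  obtain ⟨h, h', h'', hh, _, _, rfl⟩ := card_eq_three.1 hT3c
  have key : ∀ u ∈ ({p, q, r} : Finset (ℕ × ℕ × ℕ)), inc u h ∧ inc u h' := fun u hu =>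
    ⟨hcon u hu h (by simp), hcon u hu h' (by simp)⟩
  have hp : inc p h ∧ inc p h' := key p (by simp)
  have hq : inc q h ∧ inc q h' := key q (by simp)
  have hr : inc r h ∧ inc r h' := key r (by simp)
  have hproj : ∀ u v : ℕ × ℕ × ℕ, inc u h → inc v h → u ≠ v → (u.1, u.2.1) ≠ (v.1, v.2.1) := by
    intro u v hu hv huv he
    rw [Prod.mk.injEq] at he
    apply huv
    unfold inc at hu hv
    rw [he.1, he.2] at hu
    exact Prod.ext he.1 (Prod.ext he.2 (hu.trans hv.symm))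
  have hab : ¬ (((h.1 : ℤ) - h'.1) = 0 ∧ ((h.2.1 : ℤ) - h'.2.1) = 0) := by
    rintro ⟨h1, h2⟩
    have e1 : h.1 = h'.1 := by omega
    have e2 : h.2.1 = h'.2.1 := by omega
    apply hh
    obtain ⟨g1, g2⟩ := hp
    unfold inc at g1 g2
    rw [g1, e1, e2] at g2
    have e3 : h.2.2 = h'.2.2 := by omega
    exact Prod.ext e1 (Prod.ext e2 e3)
  have hlin : ∀ u : ℕ × ℕ × ℕ, inc u h ∧ inc u h' →
      ((h.1 : ℤ) - h'.1) * (u.1 : ℤ) + ((h.2.1 : ℤ) - h'.2.1) * (u.2.1 : ℤ) =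
        (h'.2.2 : ℤ) - h.2.2 := by
    rintro u ⟨g1, g2⟩
    unfold inc at g1 g2
    zify at g1 g2
    linarith
  have hmem : ∀ u ∈ ({p, q, r} : Finset (ℕ × ℕ × ℕ)), (u.1, u.2.1) ∈ S := fun u hu =>
    ((mem_box _ _ _).1 (hS3 hu)).1
  exact hS _ (hmem p (by simp)) _ (hmem q (by simp)) _ (hmem r (by simp))
    (hproj p q hp.1 hq.1 hpq) (hproj p r hp.1 hr.1 hpr) (hproj q r hq.1 hr.1 hqr)
    (det_zero hab (hlin p hp) (hlin q hq) (hlin r hr))

theorem free_right (S T : Finset (ℕ × ℕ)) (Z C : ℕ) (hT : noThree T) :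
    free (box S Z) (box T C) := by
  intro S3 hS3 hS3c T3 hT3 hT3c
  by_contra hcon
  push Not at hcon
  obtain ⟨p, q, r, hpq, _, _, rfl⟩ := card_eq_three.1 hS3c
  obtain ⟨h, h', h'', hh, hh', hh'', rfl⟩ := card_eq_three.1 hT3c
  have key : ∀ u ∈ ({h, h', h''} : Finset (ℕ × ℕ × ℕ)), inc p u ∧ inc q u := fun u hu =>
    ⟨hcon p (by simp) u hu, hcon q (by simp) u hu⟩
  have h1 := key h (by simp)
  have h2 := key h' (by simp)
  have h3 := key h'' (by simp)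
  have hproj : ∀ u v : ℕ × ℕ × ℕ, inc p u → inc p v → u ≠ v → (u.1, u.2.1) ≠ (v.1, v.2.1) := by
    intro u v hu hv huv he
    rw [Prod.mk.injEq] at he
    apply huv
    unfold inc at hu hv
    rw [hu, he.1, he.2] at hv
    exact Prod.ext he.1 (Prod.ext he.2 (by omega))
  have hab : ¬ (((p.1 : ℤ) - q.1) = 0 ∧ ((p.2.1 : ℤ) - q.2.1) = 0) := by
    rintro ⟨g1, g2⟩
    have e1 : p.1 = q.1 := by omega
    have e2 : p.2.1 = q.2.1 := by omega
    apply hpq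
    obtain ⟨f1, f2⟩ := h1
    unfold inc at f1 f2
    rw [e1, e2, ← f2] at f1
    exact Prod.ext e1 (Prod.ext e2 f1)
  have hlin : ∀ u : ℕ × ℕ × ℕ, inc p u ∧ inc q u →
      ((p.1 : ℤ) - q.1) * (u.1 : ℤ) + ((p.2.1 : ℤ) - q.2.1) * (u.2.1 : ℤ) =
        (p.2.2 : ℤ) - q.2.2 := by
    rintro u ⟨g1, g2⟩
    unfold inc at g1 g2
    zify at g1 g2
    linarith
  have hmem : ∀ u ∈ ({h, h', h''} : Finset (ℕ × ℕ × ℕ)), (u.1, u.2.1) ∈ T := fun u hu =>
    ((mem_box _ _ _).1 (hT3 hu)).1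
  exact hT _ (hmem h (by simp)) _ (hmem h' (by simp)) _ (hmem h'' (by simp))
    (hproj h h' h1.1 h2.1 hh) (hproj h h'' h1.1 h3.1 hh') (hproj h' h'' h2.1 h3.1 hh'')
    (det_zero hab (hlin h h1) (hlin h' h2) (hlin h'' h3))

/-- the parabola modulo `p`. -/
def para (p : ℕ) : Finset (ℕ × ℕ) := (range p).image fun x => (x, x ^ 2 % p)

theorem card_para (p : ℕ) : (para p).card = p := by
  unfold para
  rw [card_image_of_injective, card_range]
  intro a b h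
  exact (Prod.mk.inj h).1

theorem noThree_para (p : ℕ) (hp : p.Prime) : noThree (para p) := by
  have := Fact.mk hp
  intro u hu v hv w hw huv huw hvw hdet
  unfold para at hu hv hw
  rw [mem_image] at hu hv hw
  obtain ⟨x, hx, rfl⟩ := hu
  obtain ⟨y, hy, rfl⟩ := hv
  obtain ⟨z, hz, rfl⟩ := hw
  rw [mem_range] at hx hy hz
  have hne : ∀ a b : ℕ, a < p → b < p → (a : ZMod p) = b → a = b := by
    intro a b ha hb h
    rw [ZMod.natCast_eq_natCast_iff'] at h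
    rwa [Nat.mod_eq_of_lt ha, Nat.mod_eq_of_lt hb] at h
  have h1 := congrArg (Int.cast : ℤ → ZMod p) hdet
  simp only [Int.cast_sub, Int.cast_mul, Int.cast_natCast, Int.cast_zero, ZMod.natCast_mod,
    Nat.cast_pow] at h1
  have h2 : ((y : ZMod p) - x) * (((z : ZMod p) - x) * ((z : ZMod p) - y)) = 0 := by
    linear_combination h1
  rcases mul_eq_zero.1 h2 with h3 | h3
  · exact huv (by rw [hne y x hy hx (sub_eq_zero.1 h3)])
  · rcases mul_eq_zero.1 h3 with h4 | h4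
    · exact huw (by rw [hne z x hz hx (sub_eq_zero.1 h4)])
    · exact hvw (by rw [hne z y hz hy (sub_eq_zero.1 h4)])

theorem mem_para_le {p : ℕ} (hp : 0 < p) {u : ℕ × ℕ} (hu : u ∈ para p) : u.1 ≤ p ∧ u.2 ≤ p := by
  unfold para at hu
  rw [mem_image] at hu
  obtain ⟨x, hx, rfl⟩ := hu
  rw [mem_range] at hx
  exact ⟨hx.le, (Nat.mod_lt _ hp).le⟩

/-! ### The four lower bounds -/

theorem le_max_m (t m n : ℕ) (ht : 3 ≤ t) (hn : 1 ≤ n) : m ≤ maxInc t m n := by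
  have hc : ((range m).image fun j => ((j, 0, 0) : ℕ × ℕ × ℕ)).card = m := by
    rw [card_image_of_injective, card_range]
    intro a b h
    exact (Prod.mk.inj h).1
  have h := transfer ((range m).image fun j => ((j, 0, 0) : ℕ × ℕ × ℕ)) {(0, 0, 0)} ?_ m n t
    hc.le (by simpa using hn) ht
  · refine le_trans ?_ h
    unfold ninc
    rw [filter_true_of_mem, card_product, hc, card_singleton, mul_one]
    rintro ⟨u, v⟩ huv
    rw [mem_product, mem_image, mem_singleton] at huv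
    obtain ⟨⟨j, _, h1⟩, h2⟩ := huv
    simp only at h1 h2
    rw [← h1, h2]
    simp [inc]
  · intro S _ _ T hT hT3
    have := card_le_card hT
    rw [hT3, card_singleton] at this
    omega

theorem le_max_n (t m n : ℕ) (ht : 3 ≤ t) (hm : 1 ≤ m) : n ≤ maxInc t m n := by
  have hc : ((range n).image fun j => ((j, 0, 0) : ℕ × ℕ × ℕ)).card = n := by
    rw [card_image_of_injective, card_range]
    intro a b h
    exact (Prod.mk.inj h).1
  have h := transfer {(0, 0, 0)} ((range n).image fun j => ((j, 0, 0) : ℕ × ℕ × ℕ)) ?_ m n t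
    (by simpa using hm) hc.le ht
  · refine le_trans ?_ h
    unfold ninc
    rw [filter_true_of_mem, card_product, hc, card_singleton, one_mul]
    rintro ⟨u, v⟩ huv
    rw [mem_product, mem_image, mem_singleton] at huv
    obtain ⟨h2, ⟨j, _, h1⟩⟩ := huv
    simp only at h1 h2
    rw [← h1, h2]
    simp [inc]
  · intro S hS hS3
    have := card_le_card hS
    rw [hS3, card_singleton] at this
    omega

theorem lat_left (t m n p A : ℕ) (ht : 3 ≤ t) (hp : p.Prime) (hm : 3 * A * p ^ 2 ≤ m)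
    (hn : A ^ 3 * p ≤ n) : A ^ 3 * p ^ 2 ≤ maxInc t m n := by
  have h := transfer (box (para p) (3 * A * p)) (box (range A ×ˢ range A) (A * p))
    (free_left _ _ _ _ (noThree_para p hp)) m n t ?_ ?_ ht
  · refine le_trans ?_ h
    refine le_trans (le_of_eq ?_) (ninc_box _ _ _ _ ?_)
    · rw [card_para, card_product, card_range]; ring
    · intro u hu v hv
      obtain ⟨h1, h2⟩ := mem_para_le hp.pos hu
      rw [mem_product, mem_range, mem_range] at hv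
      have e1 : v.1 * u.1 ≤ A * p := Nat.mul_le_mul hv.1.le h1
      have e2 : v.2 * u.2 ≤ A * p := Nat.mul_le_mul hv.2.le h2
      have e3 : 3 * A * p = A * p + A * p + A * p := by ring
      omega
  · rw [card_box, card_para]
    refine le_trans (le_of_eq ?_) hm
    ring
  · rw [card_box, card_product, card_range]
    refine le_trans (le_of_eq ?_) hn
    ring

theorem lat_right (t m n p N : ℕ) (ht : 3 ≤ t) (hp : p.Prime) (hm : 3 * p * N ^ 3 ≤ m)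
    (hn : p ^ 2 * N ≤ n) : p ^ 2 * N ^ 3 ≤ maxInc t m n := by
  have h := transfer (box (range N ×ˢ range N) (3 * p * N)) (box (para p) (p * N))
    (free_right _ _ _ _ (noThree_para p hp)) m n t ?_ ?_ ht
  · refine le_trans ?_ h
    refine le_trans (le_of_eq ?_) (ninc_box _ _ _ _ ?_)
    · rw [card_para, card_product, card_range]; ring
    · intro u hu v hv
      obtain ⟨h1, h2⟩ := mem_para_le hp.pos hv
      rw [mem_product, mem_range, mem_range] at hu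
      have e1 : v.1 * u.1 ≤ p * N := Nat.mul_le_mul h1 hu.1.le
      have e2 : v.2 * u.2 ≤ p * N := Nat.mul_le_mul h2 hu.2.le
      have e3 : 3 * p * N = p * N + p * N + p * N := by ring
      omega
  · rw [card_box, card_product, card_range]
    refine le_trans (le_of_eq ?_) hm
    ring
  · rw [card_box, card_para]
    refine le_trans (le_of_eq ?_) hn
    ring

/-- a prime of the order of a given real number. -/
theorem exists_prime (v : ℝ) (hv : 2 ≤ v) : ∃ p : ℕ, p.Prime ∧ (p : ℝ) ≤ v ∧ v / 2 ≤ p := by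
  have h1 : 1 ≤ ⌊v / 2⌋₊ := by
    rw [Nat.one_le_floor_iff]
    linarith
  obtain ⟨p, hp, hp1, hp2⟩ := Nat.exists_prime_lt_and_le_two_mul ⌊v / 2⌋₊ (by omega)
  refine ⟨p, hp, ?_, ?_⟩
  · have h2 : (p : ℝ) ≤ 2 * (⌊v / 2⌋₊ : ℝ) := by exact_mod_cast hp2
    have h3 : ((⌊v / 2⌋₊ : ℕ) : ℝ) ≤ v / 2 := Nat.floor_le (by linarith)
    linarith
  · have h2 : ((⌊v / 2⌋₊ : ℕ) : ℝ) + 1 ≤ p := by exact_mod_cast hp1
    have h3 : v / 2 < (⌊v / 2⌋₊ : ℕ) + 1 := Nat.lt_floor_add_one _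
    linarith

theorem term_left (t m n : ℕ) (ht : 3 ≤ t) (hm : 1 ≤ m) (hn : 1 ≤ n) :
    (m : ℝ) ^ (3 / 5 : ℝ) * (n : ℝ) ^ (4 / 5 : ℝ) ≤ 864 * (maxInc t m n : ℝ) := by
  have hx : (0 : ℝ) < m := by exact_mod_cast hm
  have hy : (0 : ℝ) < n := by exact_mod_cast hn
  have hI1 : (m : ℝ) ≤ maxInc t m n := by exact_mod_cast le_max_m t m n ht hn
  have hI2 : (n : ℝ) ≤ maxInc t m n := by exact_mod_cast le_max_n t m n ht hm
  obtain ⟨al, hal⟩ : ∃ al : ℝ, al = (n : ℝ) ^ (2 / 5 : ℝ) * (m : ℝ) ^ (-1 / 5 : ℝ) := ⟨_, rfl⟩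
  obtain ⟨nu, hnu⟩ : ∃ nu : ℝ, nu = (m : ℝ) ^ (3 / 5 : ℝ) * (n : ℝ) ^ (-1 / 5 : ℝ) := ⟨_, rfl⟩
  have hal0 : 0 < al := by rw [hal]; positivity
  have hnu0 : 0 < nu := by rw [hnu]; positivity
  have e1 : (m : ℝ) ^ (3 / 5 : ℝ) * (n : ℝ) ^ (4 / 5 : ℝ) = nu * n := by
    have : (n : ℝ) ^ (4 / 5 : ℝ) = (n : ℝ) ^ (-1 / 5 : ℝ) * n := by
      rw [← Real.rpow_add_one hy.ne']; norm_num
    rw [this, hnu]; ring
  have e2 : nu * n = al ^ 2 * m := by
    rw [hnu, hal, mul_pow, ← Real.rpow_natCast, ← Real.rpow_natCast, ← Real.rpow_mul hy.le,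
      ← Real.rpow_mul hx.le]
    have h1 : (n : ℝ) ^ (2 / 5 * ((2 : ℕ) : ℝ) : ℝ) = (n : ℝ) ^ (-1 / 5 : ℝ) * n := by
      rw [← Real.rpow_add_one hy.ne']; norm_num
    have h2 : (m : ℝ) ^ (3 / 5 : ℝ) = (m : ℝ) ^ (-1 / 5 * ((2 : ℕ) : ℝ) : ℝ) * m := by
      rw [← Real.rpow_add_one hx.ne']; norm_num
    rw [h1, h2]; ring
  have e3 : al * nu ^ 2 = m := by
    rw [hnu, hal, mul_pow, ← Real.rpow_natCast, ← Real.rpow_natCast, ← Real.rpow_mul hy.le,
      ← Real.rpow_mul hx.le]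
    have h1 : (n : ℝ) ^ (2 / 5 : ℝ) * (n : ℝ) ^ (-1 / 5 * ((2 : ℕ) : ℝ) : ℝ) = 1 := by
      rw [← Real.rpow_add hy]; norm_num
    have h2 : (m : ℝ) ^ (-1 / 5 : ℝ) * (m : ℝ) ^ (3 / 5 * ((2 : ℕ) : ℝ) : ℝ) = m := by
      rw [← Real.rpow_add hx]; norm_num
    calc _ = ((n : ℝ) ^ (2 / 5 : ℝ) * (n : ℝ) ^ (-1 / 5 * ((2 : ℕ) : ℝ) : ℝ)) *
        ((m : ℝ) ^ (-1 / 5 : ℝ) * (m : ℝ) ^ (3 / 5 * ((2 : ℕ) : ℝ) : ℝ)) := by ring
      _ = m := by rw [h1, h2, one_mul]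
  have e4 : al ^ 3 * nu = n := by
    have h1 : al ^ 3 * nu * (al * nu ^ 2) = n * m := by
      calc al ^ 3 * nu * (al * nu ^ 2) = (al ^ 2 * (al * nu ^ 2)) * (al * nu) := by ring
        _ = (nu * n) * (al * nu) := by rw [e3, ← e2]
        _ = n * (al * nu ^ 2) := by ring
        _ = n * m := by rw [e3]
    rw [e3] at h1
    exact mul_right_cancel₀ hx.ne' h1
  have e5 : nu * n = al ^ 3 * nu ^ 2 := by rw [← e4]; ring
  rw [e1]
  by_cases hc1 : nu < 2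
  · have : nu * n ≤ 2 * n := mul_le_mul_of_nonneg_right hc1.le hy.le
    linarith
  by_cases hc2 : al < 6
  · rw [e2]
    have h1 : al ^ 2 ≤ 36 := by nlinarith
    have : al ^ 2 * m ≤ 36 * m := mul_le_mul_of_nonneg_right h1 hx.le
    linarith
  rw [not_lt] at hc1 hc2
  obtain ⟨p, hp, hp1, hp2⟩ := exists_prime nu hc1
  obtain ⟨A, hA⟩ : ∃ A : ℕ, A = ⌊al / 3⌋₊ := ⟨_, rfl⟩
  have hA1 : (A : ℝ) ≤ al / 3 := by rw [hA]; exact Nat.floor_le (by linarith)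
  have hA2 : al / 6 ≤ A := by
    have : al / 3 < (⌊al / 3⌋₊ : ℕ) + 1 := Nat.lt_floor_add_one _
    rw [hA]; linarith
  have hp0 : (0 : ℝ) ≤ p := Nat.cast_nonneg p
  have hA0 : (0 : ℝ) ≤ A := Nat.cast_nonneg A
  have h1 : 3 * A * p ^ 2 ≤ m := by
    have : (3 * A * p ^ 2 : ℝ) ≤ m := by
      rw [← e3]
      have : (3 * A : ℝ) ≤ al := by linarith
      exact mul_le_mul this (pow_le_pow_left₀ hp0 hp1 2) (by positivity) hal0.le
    exact_mod_cast this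
  have h2 : A ^ 3 * p ≤ n := by
    have : (A ^ 3 * p : ℝ) ≤ n := by
      rw [← e4]
      have : (A : ℝ) ≤ al := by linarith
      exact mul_le_mul (pow_le_pow_left₀ hA0 this 3) hp1 hp0 (by positivity)
    exact_mod_cast this
  have h3 := lat_left t m n p A ht hp h1 h2
  have h4 : ((A : ℝ) ^ 3 * p ^ 2) ≤ maxInc t m n := by exact_mod_cast h3
  rw [e5]
  have h5 : (al / 6) ^ 3 * (nu / 2) ^ 2 ≤ (A : ℝ) ^ 3 * p ^ 2 :=
    mul_le_mul (pow_le_pow_left₀ (by positivity) hA2 3) (pow_le_pow_left₀ (by positivity) hp2 2)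
      (by positivity) (by positivity)
  have h6 : (al / 6) ^ 3 * (nu / 2) ^ 2 = al ^ 3 * nu ^ 2 / 864 := by ring
  rw [h6] at h5
  linarith

theorem term_right (t m n : ℕ) (ht : 3 ≤ t) (hm : 1 ≤ m) (hn : 1 ≤ n) :
    (m : ℝ) ^ (4 / 5 : ℝ) * (n : ℝ) ^ (3 / 5 : ℝ) ≤ 256 * (maxInc t m n : ℝ) := by
  have hx : (0 : ℝ) < m := by exact_mod_cast hm
  have hy : (0 : ℝ) < n := by exact_mod_cast hn
  have hI1 : (m : ℝ) ≤ maxInc t m n := by exact_mod_cast le_max_m t m n ht hn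
  have hI2 : (n : ℝ) ≤ maxInc t m n := by exact_mod_cast le_max_n t m n ht hm
  obtain ⟨pi, hpi⟩ : ∃ pi : ℝ, pi = (n : ℝ) ^ (3 / 5 : ℝ) * (m : ℝ) ^ (-1 / 5 : ℝ) := ⟨_, rfl⟩
  obtain ⟨nu, hnu⟩ : ∃ nu : ℝ, nu = (m : ℝ) ^ (2 / 5 : ℝ) * (n : ℝ) ^ (-1 / 5 : ℝ) := ⟨_, rfl⟩
  have hpi0 : 0 < pi := by rw [hpi]; positivity
  have hnu0 : 0 < nu := by rw [hnu]; positivity
  have e1 : (m : ℝ) ^ (4 / 5 : ℝ) * (n : ℝ) ^ (3 / 5 : ℝ) = pi * m := by
    have : (m : ℝ) ^ (4 / 5 : ℝ) = (m : ℝ) ^ (-1 / 5 : ℝ) * m := by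
      rw [← Real.rpow_add_one hx.ne']; norm_num
    rw [this, hpi]; ring
  have e2 : pi * m = nu ^ 2 * n := by
    rw [hnu, hpi, mul_pow, ← Real.rpow_natCast, ← Real.rpow_natCast, ← Real.rpow_mul hy.le,
      ← Real.rpow_mul hx.le]
    have h1 : (m : ℝ) ^ (2 / 5 * ((2 : ℕ) : ℝ) : ℝ) = (m : ℝ) ^ (-1 / 5 : ℝ) * m := by
      rw [← Real.rpow_add_one hx.ne']; norm_num
    have h2 : (n : ℝ) ^ (3 / 5 : ℝ) = (n : ℝ) ^ (-1 / 5 * ((2 : ℕ) : ℝ) : ℝ) * n := by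
      rw [← Real.rpow_add_one hy.ne']; norm_num
    rw [h1, h2]; ring
  have e4 : pi ^ 2 * nu = n := by
    rw [hnu, hpi, mul_pow, ← Real.rpow_natCast, ← Real.rpow_natCast, ← Real.rpow_mul hy.le,
      ← Real.rpow_mul hx.le]
    have h1 : (m : ℝ) ^ (2 / 5 : ℝ) * (m : ℝ) ^ (-1 / 5 * ((2 : ℕ) : ℝ) : ℝ) = 1 := by
      rw [← Real.rpow_add hx]; norm_num
    have h2 : (n : ℝ) ^ (-1 / 5 : ℝ) * (n : ℝ) ^ (3 / 5 * ((2 : ℕ) : ℝ) : ℝ) = n := by
      rw [← Real.rpow_add hy]; norm_num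
    calc _ = ((m : ℝ) ^ (2 / 5 : ℝ) * (m : ℝ) ^ (-1 / 5 * ((2 : ℕ) : ℝ) : ℝ)) *
        ((n : ℝ) ^ (-1 / 5 : ℝ) * (n : ℝ) ^ (3 / 5 * ((2 : ℕ) : ℝ) : ℝ)) := by ring
      _ = n := by rw [h1, h2, one_mul]
  have e3 : pi * nu ^ 3 = m := by
    have h1 : pi * (pi * nu ^ 3) = pi * m := by
      rw [e2, ← e4]; ring
    exact mul_left_cancel₀ hpi0.ne' h1
  have e5 : pi * m = pi ^ 2 * nu ^ 3 := by rw [← e3]; ring
  rw [e1]
  by_cases hc1 : pi < 2
  · have : pi * m ≤ 2 * m := mul_le_mul_of_nonneg_right hc1.le hx.le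
    linarith
  by_cases hc2 : nu < 4
  · rw [e2]
    have h1 : nu ^ 2 ≤ 16 := by nlinarith
    have : nu ^ 2 * n ≤ 16 * n := mul_le_mul_of_nonneg_right h1 hy.le
    linarith
  rw [not_lt] at hc1 hc2
  obtain ⟨p, hp, hp1, hp2⟩ := exists_prime pi hc1
  obtain ⟨N, hN⟩ : ∃ N : ℕ, N = ⌊nu / 2⌋₊ := ⟨_, rfl⟩
  have hN1 : (N : ℝ) ≤ nu / 2 := by rw [hN]; exact Nat.floor_le (by linarith)
  have hN2 : nu / 4 ≤ N := by
    have : nu / 2 < (⌊nu / 2⌋₊ : ℕ) + 1 := Nat.lt_floor_add_one _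
    rw [hN]; linarith
  have hp0 : (0 : ℝ) ≤ p := Nat.cast_nonneg p
  have hN0 : (0 : ℝ) ≤ N := Nat.cast_nonneg N
  have h1 : 3 * p * N ^ 3 ≤ m := by
    have : (3 * p * N ^ 3 : ℝ) ≤ m := by
      rw [← e3]
      have h2 : (N : ℝ) ^ 3 ≤ (nu / 2) ^ 3 := pow_le_pow_left₀ hN0 hN1 3
      have h3 : (p : ℝ) * (N : ℝ) ^ 3 ≤ pi * (nu / 2) ^ 3 :=
        mul_le_mul hp1 h2 (by positivity) hpi0.le
      have h4 : 0 ≤ pi * nu ^ 3 := by positivity
      have h5 : pi * (nu / 2) ^ 3 = pi * nu ^ 3 / 8 := by ring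
      rw [h5] at h3
      linarith
    exact_mod_cast this
  have h2 : p ^ 2 * N ≤ n := by
    have : (p ^ 2 * N : ℝ) ≤ n := by
      rw [← e4]
      have : (N : ℝ) ≤ nu := by linarith
      exact mul_le_mul (pow_le_pow_left₀ hp0 hp1 2) this hN0 (by positivity)
    exact_mod_cast this
  have h3 := lat_right t m n p N ht hp h1 h2
  have h4 : ((p : ℝ) ^ 2 * N ^ 3) ≤ maxInc t m n := by exact_mod_cast h3
  rw [e5]
  have h5 : (pi / 2) ^ 2 * (nu / 4) ^ 3 ≤ (p : ℝ) ^ 2 * N ^ 3 :=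
    mul_le_mul (pow_le_pow_left₀ (by positivity) hp2 2) (pow_le_pow_left₀ (by positivity) hN2 3)
      (by positivity) (by positivity)
  have h6 : (pi / 2) ^ 2 * (nu / 4) ^ 3 = pi ^ 2 * nu ^ 3 / 256 := by ring
  rw [h6] at h5
  linarith

/-- Lower bound for the number of point-plane incidences without `K_{3,t}`, for all `t ≥ 3` and
all `m, n ≥ 1`. -/
theorem result : ∃ c : ℝ, 0 < c ∧ ∀ t m n : ℕ, 3 ≤ t → 1 ≤ m → 1 ≤ n →
    c * ((m : ℝ) ^ (4 / 5 : ℝ) * (n : ℝ) ^ (3 / 5 : ℝ) +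
      (m : ℝ) ^ (3 / 5 : ℝ) * (n : ℝ) ^ (4 / 5 : ℝ) + m + n) ≤ (maxInc t m n : ℝ) := by
  refine ⟨1 / 2000, by norm_num, fun t m n ht hm hn => ?_⟩
  have h1 := term_left t m n ht hm hn
  have h2 := term_right t m n ht hm hn
  have hI1 : (m : ℝ) ≤ maxInc t m n := by exact_mod_cast le_max_m t m n ht hn
  have hI2 : (n : ℝ) ≤ maxInc t m n := by exact_mod_cast le_max_n t m n ht hm
  have h0 : (0 : ℝ) ≤ maxInc t m n := Nat.cast_nonneg _
  linarith

end Pool.Agent.Results.MP_06b5a3_co.UnbalancedLower
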