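import Pool.Agent.H72.PP.Final

/-!
# Point-plane incidences in `ℝ³` without `K_{3,t}`: upper bounds

The upper bound `I_t(m,n) ≤ C F(m,n)`, which has the right order (it meets the lower bound of
UnbalancedLower) for `m ≤ n^{4/7}` and for `n ≤ m^{4/7}`.

The definitions (`IsPlane`, `incidences`, `ContainsK`, `values`, `maxInc`) are at the top of
`Pool/Agent/Results/MP_06b5a3_co/UnbalancedLower.lean`.

Proof. Let `X` be the points and `Y` the planes. Call an incidence `(x, y)` an A-incidence if some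
line through `x` in `y` lies in at least `s` planes of `Y`. There are at most `2 |Y|²`
A-incidences, and the other incidences form a graph without `K_{2,s}`, so that a cutting
(into canonical simplices, with Helly's theorem and random sampling by double counting) gives
`I ≤ C (|X|^{4/5} |Y|^{3/5} + |X| + |Y|²)` and the dual bound. A second cutting on top of the dual
bound gives the bound in the middle range.
-/

set_option autoImplicit false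

namespace Pool.Agent.Results.MP_06b5a3_co.CuttingUpper

open Pool.Agent.H72.PP Pool.Agent.Results.MP_06b5a3_co.UnbalancedLower

open Classical in
/-- The upper bound: `m^{4/5} n^{3/5} + m^{3/5} n^{4/5} + m + n` if `m ≤ n^{4/7}` or `n ≤ m^{4/7}`,
and `min(m,n)^{1/17} (m n)^{12/17}` in between. -/
noncomputable def bound (m n : ℕ) : ℝ :=
  if m ^ 7 ≤ n ^ 4 ∨ n ^ 7 ≤ m ^ 4 then
    (m : ℝ) ^ (4 / 5 : ℝ) * (n : ℝ) ^ (3 / 5 : ℝ) +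
      (m : ℝ) ^ (3 / 5 : ℝ) * (n : ℝ) ^ (4 / 5 : ℝ) + m + n
  else ((min m n : ℕ) : ℝ) ^ (1 / 17 : ℝ) * ((m : ℝ) * n) ^ (12 / 17 : ℝ)

/-- in the middle range the first four terms are dominated. -/
theorem lead_le {m n : ℕ} (hm : 1 ≤ m) (hmn : m ≤ n) (h : n ^ 4 ≤ m ^ 7) :
    (m : ℝ) ^ (4 / 5 : ℝ) * (n : ℝ) ^ (3 / 5 : ℝ) +
      (m : ℝ) ^ (3 / 5 : ℝ) * (n : ℝ) ^ (4 / 5 : ℝ) + m + n ≤
      4 * (((min m n : ℕ) : ℝ) ^ (1 / 17 : ℝ) * ((m : ℝ) * n) ^ (12 / 17 : ℝ)) := by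
  have hm1 : (1 : ℝ) ≤ m := by exact_mod_cast hm
  have hmnR : (m : ℝ) ≤ n := by exact_mod_cast hmn
  have hn1 : (1 : ℝ) ≤ n := hm1.trans hmnR
  have hm0 : (0 : ℝ) < m := by linarith
  have hn0 : (0 : ℝ) < n := by linarith
  have hR : (n : ℝ) ^ 4 ≤ (m : ℝ) ^ 7 := by exact_mod_cast h
  have emid : ((min m n : ℕ) : ℝ) ^ (1 / 17 : ℝ) * ((m : ℝ) * n) ^ (12 / 17 : ℝ) =
      (m : ℝ) ^ (13 / 17 : ℝ) * (n : ℝ) ^ (12 / 17 : ℝ) := by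
    rw [min_eq_left hmn, Real.mul_rpow hm0.le hn0.le, ← mul_assoc, ← Real.rpow_add hm0]
    norm_num
  rw [emid]
  -- `n ^ 4 ≤ m ^ 7` in real powers
  have key : ∀ a : ℝ, 0 ≤ a → (n : ℝ) ^ (4 * a) ≤ (m : ℝ) ^ (7 * a) := by
    intro a ha
    rw [Real.rpow_mul hn0.le, Real.rpow_mul hm0.le]
    refine Real.rpow_le_rpow (by positivity) ?_ ha
    exact_mod_cast hR
  have t2 : (m : ℝ) ^ (3 / 5 : ℝ) * (n : ℝ) ^ (4 / 5 : ℝ) ≤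
      (m : ℝ) ^ (13 / 17 : ℝ) * (n : ℝ) ^ (12 / 17 : ℝ) := by
    have h1 := key (2 / 85) (by norm_num)
    have e1 : (n : ℝ) ^ (4 / 5 : ℝ) = (n : ℝ) ^ (12 / 17 : ℝ) * (n : ℝ) ^ (4 * (2 / 85) : ℝ) := by
      rw [← Real.rpow_add hn0]; norm_num
    have e2 : (m : ℝ) ^ (13 / 17 : ℝ) = (m : ℝ) ^ (3 / 5 : ℝ) * (m : ℝ) ^ (7 * (2 / 85) : ℝ) := by
      rw [← Real.rpow_add hm0]; norm_num
    rw [e1, e2]
    have h2 : (0 : ℝ) ≤ (m : ℝ) ^ (3 / 5 : ℝ) * (n : ℝ) ^ (12 / 17 : ℝ) := by positivity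
    nlinarith
  have t1 : (m : ℝ) ^ (4 / 5 : ℝ) * (n : ℝ) ^ (3 / 5 : ℝ) ≤
      (m : ℝ) ^ (3 / 5 : ℝ) * (n : ℝ) ^ (4 / 5 : ℝ) := by
    have e1 : (m : ℝ) ^ (4 / 5 : ℝ) = (m : ℝ) ^ (3 / 5 : ℝ) * (m : ℝ) ^ (1 / 5 : ℝ) := by
      rw [← Real.rpow_add hm0]; norm_num
    have e2 : (n : ℝ) ^ (4 / 5 : ℝ) = (n : ℝ) ^ (3 / 5 : ℝ) * (n : ℝ) ^ (1 / 5 : ℝ) := by
      rw [← Real.rpow_add hn0]; norm_num
    have h1 : (m : ℝ) ^ (1 / 5 : ℝ) ≤ (n : ℝ) ^ (1 / 5 : ℝ) :=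
      Real.rpow_le_rpow hm0.le hmnR (by norm_num)
    rw [e1, e2]
    have h2 : (0 : ℝ) ≤ (m : ℝ) ^ (3 / 5 : ℝ) * (n : ℝ) ^ (3 / 5 : ℝ) := by positivity
    nlinarith
  have t4 : (n : ℝ) ≤ (m : ℝ) ^ (13 / 17 : ℝ) * (n : ℝ) ^ (12 / 17 : ℝ) := by
    have h1 := key (5 / 68) (by norm_num)
    have e1 : (n : ℝ) = (n : ℝ) ^ (12 / 17 : ℝ) * (n : ℝ) ^ (4 * (5 / 68) : ℝ) := by
      rw [← Real.rpow_add hn0]; norm_num
    have h2 : (m : ℝ) ^ (7 * (5 / 68) : ℝ) ≤ (m : ℝ) ^ (13 / 17 : ℝ) :=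
      Real.rpow_le_rpow_of_exponent_le hm1 (by norm_num)
    have h3 : (0 : ℝ) ≤ (n : ℝ) ^ (12 / 17 : ℝ) := by positivity
    calc (n : ℝ) = (n : ℝ) ^ (12 / 17 : ℝ) * (n : ℝ) ^ (4 * (5 / 68) : ℝ) := e1
      _ ≤ (n : ℝ) ^ (12 / 17 : ℝ) * (m : ℝ) ^ (13 / 17 : ℝ) :=
        mul_le_mul_of_nonneg_left (h1.trans h2) h3
      _ = (m : ℝ) ^ (13 / 17 : ℝ) * (n : ℝ) ^ (12 / 17 : ℝ) := mul_comm _ _
  linarith

theorem bound_spec (m n : ℕ) (hm : 1 ≤ m) (hn : 1 ≤ n) :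
    (m : ℝ) ^ (4 / 5 : ℝ) * (n : ℝ) ^ (3 / 5 : ℝ) +
      (m : ℝ) ^ (3 / 5 : ℝ) * (n : ℝ) ^ (4 / 5 : ℝ) + m + n +
      ((min m n : ℕ) : ℝ) ^ (1 / 17 : ℝ) * ((m : ℝ) * n) ^ (12 / 17 : ℝ) ≤ 5 * bound m n := by
  unfold bound
  split_ifs with h
  · have h1 := middle_le m n hm hn h
    have h2 : (0 : ℝ) ≤ (m : ℝ) := by positivity
    have h3 : (0 : ℝ) ≤ (n : ℝ) := by positivity
    have h4 : 0 ≤ (m : ℝ) ^ (4 / 5 : ℝ) * (n : ℝ) ^ (3 / 5 : ℝ) +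
      (m : ℝ) ^ (3 / 5 : ℝ) * (n : ℝ) ^ (4 / 5 : ℝ) := by positivity
    linarith
  · rw [not_or, not_le, not_le] at h
    rcases le_total m n with hmn | hmn
    · have h1 := lead_le hm hmn h.1.le
      linarith
    · have h1 := lead_le hn hmn h.2.le
      rw [min_comm, mul_comm (n : ℝ) (m : ℝ)] at h1
      have e1 : (m : ℝ) ^ (4 / 5 : ℝ) * (n : ℝ) ^ (3 / 5 : ℝ) =
        (n : ℝ) ^ (3 / 5 : ℝ) * (m : ℝ) ^ (4 / 5 : ℝ) := mul_comm _ _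
      have e2 : (m : ℝ) ^ (3 / 5 : ℝ) * (n : ℝ) ^ (4 / 5 : ℝ) =
        (n : ℝ) ^ (4 / 5 : ℝ) * (m : ℝ) ^ (3 / 5 : ℝ) := mul_comm _ _
      rw [e1, e2]
      linarith

theorem result (t : ℕ) : ∃ C : ℝ, ∀ m n : ℕ, 1 ≤ m → 1 ≤ n →
    (maxInc t m n : ℝ) ≤ C * bound m n := by
  obtain ⟨C, hC, hup⟩ := maxInc_le t
  refine ⟨C * 5, fun m n hm hn => ?_⟩
  refine (hup m n hm hn).trans ?_
  rw [mul_assoc]
  exact mul_le_mul_of_nonneg_left (bound_spec m n hm hn) hC.le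

end Pool.Agent.Results.MP_06b5a3_co.CuttingUpper
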